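import Pool.Agent.W601.RP.Stm2

set_option autoImplicit false
open scoped Classical
open Filter Topology

namespace Pool.Agent.W280.RP

open Pool.Agent.W601.RP

theorem pw : S_PW := by
  intro hfin Y _ f hf
  have hind := ContinuousMonoidHom.isInducing_toContinuousMap
    (PontryaginDual (Multiplicative ↥GS)) Circle
  have h1 : Continuous (fun y => ContinuousMonoidHom.toContinuousMap
      (f y : ContinuousMonoidHom (PontryaginDual (Multiplicative ↥GS)) Circle)) := by
    rw [ContinuousMap.continuous_compactOpen]
    intro K hK U hU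
    have hKf := hfin K hK
    have h2 : {y | Set.MapsTo (ContinuousMonoidHom.toContinuousMap
        (f y : ContinuousMonoidHom (PontryaginDual (Multiplicative ↥GS)) Circle)) K U}
        = ⋂ χ ∈ K, {y | f y χ ∈ U} := by
      ext y
      rw [Set.mem_iInter₂]
      exact Iff.rfl
    have h3 : IsOpen (⋂ χ ∈ K, {y | f y χ ∈ U}) :=
      hKf.isOpen_biInter (fun χ _ => hU.preimage (hf χ))
    exact h2 ▸ h3
  exact hind.continuous_iff.mpr h1

end Pool.Agent.W280.RP
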